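import Mathlib

/-!
# Ordinal metric matching: no deterministic mechanism has bounded max-distortion

Agents `0, …, n - 1` and items `1, …, n - 1` alternate on a path (item `u` is between the agents
`u - 1` and `u`); there is one more item `0`.  Every agent ranks the items of the path by their
distance and inserts item `0` after the items at distance at most `2 R - 1`.  If the mechanism gives
item `0` to an agent in the right half, the adversary places item `0` at the left end of the path
(every other agent is then matched to its left neighbour), and conversely.  The metric is the path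
metric truncated at a level which grows by two each time the distance to the end is doubled.
-/

set_option autoImplicit false

open scoped ENNReal NNReal

namespace Pool.Agent.Results.MP_b944bf_lc.UnboundedMaxDistortion

/-- A profile of strict rankings: agent `a` puts item `b` at place `σ a b` of its list (place `0` is
the favourite). -/
abbrev Profile (n : ℕ) := Fin n → Equiv.Perm (Fin n)

/-- A deterministic matching mechanism: for each `n` a perfect matching (agent `a` receives item
`f n σ a`) for every profile `σ`. -/
def Mechanism := ∀ n : ℕ, Profile n → Equiv.Perm (Fin n)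

/-- Functions on pairs of points of the disjoint union of the agents and the items. -/
abbrev Dist (n : ℕ) := Fin n ⊕ Fin n → Fin n ⊕ Fin n → ℝ

/-- Pseudometrics. -/
structure IsPseudometric {X : Type} (d : X → X → ℝ) : Prop where
  self : ∀ x, d x x = 0
  symm : ∀ x y, d x y = d y x
  triangle : ∀ x y z, d x z ≤ d x y + d y z

/-- The profile is consistent with the pseudometric. -/
def Consistent {n : ℕ} (σ : Profile n) (d : Dist n) : Prop :=
  IsPseudometric d ∧ ∀ a b b' : Fin n, σ a b < σ a b' → d (.inl a) (.inr b) ≤ d (.inl a) (.inr b')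

/-- The max-cost of a perfect matching. -/
noncomputable def maxCost {n : ℕ} (M : Equiv.Perm (Fin n)) (d : Dist n) : ℝ :=
  ⨆ a : Fin n, d (.inl a) (.inr (M a))

/-- The optimal max-cost. -/
noncomputable def opt {n : ℕ} (d : Dist n) : ℝ := ⨅ M : Equiv.Perm (Fin n), maxCost M d

/-- The max-distortion of `f` on `n` agents: the least `α` such that the max-cost of the matching
chosen by `f` is at most `α` times the optimum, for all profiles and all consistent pseudometrics
(`∞` if there is none). -/
noncomputable def maxDistortion (f : Mechanism) (n : ℕ) : ℝ≥0∞ :=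
  sInf {α : ℝ≥0∞ | ∀ (σ : Profile n) (d : Dist n), Consistent σ d →
    ENNReal.ofReal (maxCost (f n σ) d) ≤ α * ENNReal.ofReal (opt d)}

/-! ### The truncation level -/

/-- the truncation level -/
def gam (R x : ℕ) : ℕ := min (2 * R - 1) (1 + 2 * Nat.log 2 (x / R))

lemma log_succ (y : ℕ) : Nat.log 2 (y + 1) ≤ Nat.log 2 y + 1 := by
  rcases Nat.eq_zero_or_pos y with rfl | hy
  · simp
  · have h1 : Nat.log 2 (y + 1) ≤ Nat.log 2 (y * 2) := Nat.log_mono_right (by omega)
    rwa [Nat.log_mul_base (by norm_num) hy.ne'] at h1

lemma log_double (y : ℕ) : Nat.log 2 (2 * y + 1) ≤ Nat.log 2 y + 1 := by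
  rcases Nat.eq_zero_or_pos y with rfl | hy
  · simp
  · have h1 : Nat.log 2 (2 * y + 1) = Nat.log 2 ((2 * y + 1) / 2 * 2) := by
      rw [Nat.log_div_mul_self]
    have h2 : (2 * y + 1) / 2 = y := by omega
    rw [h1, h2, Nat.log_mul_base (by norm_num) hy.ne']

lemma gam_mono (R : ℕ) {x y : ℕ} (h : x ≤ y) : gam R x ≤ gam R y := by
  have h1 : Nat.log 2 (x / R) ≤ Nat.log 2 (y / R) := Nat.log_mono_right (Nat.div_le_div_right h)
  unfold gam
  omega

lemma gam_pos {R : ℕ} (hR : 2 ≤ R) (x : ℕ) : 1 ≤ gam R x := by
  unfold gam
  omega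

lemma gam_le (R x : ℕ) : gam R x ≤ 2 * R - 1 := min_le_left _ _

lemma gam_self {R : ℕ} (hR : 2 ≤ R) : gam R R = 1 := by
  unfold gam
  rw [Nat.div_self (by omega), Nat.log_one_right]
  omega

lemma gam_add_R {R : ℕ} (hR : 2 ≤ R) (x : ℕ) : gam R (x + R) ≤ gam R x + 2 := by
  have h1 := log_succ (x / R)
  unfold gam
  rw [Nat.add_div_right _ (by omega)]
  have h2 : (x / R).succ = x / R + 1 := rfl
  omega

lemma gam_add_two {R : ℕ} (hR : 2 ≤ R) (x : ℕ) : gam R (x + 2) ≤ gam R x + 2 :=
  (gam_mono R (by omega)).trans (gam_add_R hR x)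

lemma gam_double {R : ℕ} (hR : 2 ≤ R) (x : ℕ) : gam R (2 * x) ≤ gam R x + 2 := by
  have h1 := log_double (x / R)
  have h2 : 2 * x / R ≤ 2 * (x / R) + 1 := by
    have h3 := Nat.div_add_mod x R
    have h4 := Nat.mod_lt x (show R > 0 by omega)
    refine Nat.lt_succ_iff.1 ((Nat.div_lt_iff_lt_mul (by omega)).2 ?_)
    have h5 : (2 * (x / R) + 1).succ * R = 2 * (R * (x / R)) + 2 * R := by
      rw [Nat.succ_eq_add_one]; ring
    rw [h5]
    omega
  have h3 := Nat.log_mono_right (b := 2) h2
  unfold gam
  omega

lemma gam_grow {R : ℕ} (hR : 2 ≤ R) (x j : ℕ) : gam R (x + j) ≤ gam R x + 2 * j := by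
  induction j with
  | zero => simp
  | succ j ih =>
    have h1 := gam_add_two hR (x + j)
    have h2 : gam R (x + (j + 1)) ≤ gam R (x + j + 2) := gam_mono R (by omega)
    omega

lemma gam_grow2 {R : ℕ} (hR : 2 ≤ R) (x j : ℕ) : gam R (x + 2 * j) ≤ gam R x + 2 * j := by
  induction j with
  | zero => simp
  | succ j ih =>
    have h1 := gam_add_two hR (x + 2 * j)
    have h2 : x + 2 * (j + 1) = x + 2 * j + 2 := by ring
    rw [h2]
    omega

lemma gam_large {R x : ℕ} (hR : 2 ≤ R) (hx : R * 2 ^ (R - 1) ≤ x) : gam R x = 2 * R - 1 := by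
  have h1 : 2 ^ (R - 1) ≤ x / R := by
    rw [Nat.le_div_iff_mul_le (by omega)]
    rwa [mul_comm]
  have h2 : R - 1 ≤ Nat.log 2 (x / R) := by
    have h3 := Nat.log_mono_right (b := 2) h1
    rwa [Nat.log_pow (by norm_num)] at h3
  unfold gam
  omega

/-! ### The distances between agents and items -/

/-- the key by which agent `t` sorts the items -/
def key (R t u : ℕ) : ℕ := if u = 0 then 2 * R else if t < u then 2 * (u - t) - 1 else 2 * (t - u) + 1

/-- the distance as a function of the key -/
def F (R t k : ℕ) : ℕ := min k (gam R (t + (k + 1) / 2))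

/-- the distance between agent `t` and item `u` when item `0` is at the left end -/
def D (R t u : ℕ) : ℕ := F R t (key R t u)

lemma F_mono (R t : ℕ) {k l : ℕ} (h : k ≤ l) : F R t k ≤ F R t l := by
  have h1 : gam R (t + (k + 1) / 2) ≤ gam R (t + (l + 1) / 2) := gam_mono R (by omega)
  unfold F
  omega

lemma D_zero {R : ℕ} (hR : 2 ≤ R) (t : ℕ) : D R t 0 = gam R (t + R) := by
  unfold D F key
  rw [if_pos rfl]
  have h1 : (2 * R + 1) / 2 = R := by omega
  rw [h1]
  have h2 := gam_le R (t + R)
  omega

lemma D_lt {R t u : ℕ} (h : t < u) : D R t u = min (2 * (u - t) - 1) (gam R u) := by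
  unfold D F key
  rw [if_neg (by omega), if_pos h]
  have h1 : t + (2 * (u - t) - 1 + 1) / 2 = u := by omega
  rw [h1]

lemma D_le {R t u : ℕ} (h0 : 0 < u) (h : u ≤ t) :
    D R t u = min (2 * (t - u) + 1) (gam R (2 * t - u + 1)) := by
  unfold D F key
  rw [if_neg (by omega), if_neg (by omega)]
  have h1 : t + (2 * (t - u) + 1 + 1) / 2 = 2 * t - u + 1 := by omega
  rw [h1]

/-- the distance on the path -/
def s (t u : ℕ) : ℕ := if t < u then 2 * (u - t) - 1 else 2 * (t - u) + 1

/-- either the distance is the path distance, or it is large -/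
lemma D_cases {R : ℕ} (t : ℕ) {u : ℕ} (hu : 0 < u) :
    (D R t u = s t u) ∨ (gam R t ≤ D R t u ∧ gam R u ≤ D R t u ∧
      (u ≤ t → D R t u = gam R (2 * t - u + 1))) := by
  unfold s
  rcases lt_or_ge t u with h | h
  · rw [D_lt h, if_pos h]
    have h1 : gam R t ≤ gam R u := gam_mono R h.le
    rcases le_total (2 * (u - t) - 1) (gam R u) with h2 | h2
    · left; exact min_eq_left h2
    · right
      rw [min_eq_right h2]
      exact ⟨h1, le_rfl, fun h3 => by omega⟩
  · rw [D_le hu h, if_neg (by omega)]
    have h1 : gam R t ≤ gam R (2 * t - u + 1) := gam_mono R (by omega)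
    have h3 : gam R u ≤ gam R (2 * t - u + 1) := gam_mono R (by omega)
    rcases le_total (2 * (t - u) + 1) (gam R (2 * t - u + 1)) with h2 | h2
    · left; exact min_eq_left h2
    · right
      rw [min_eq_right h2]
      exact ⟨h1, h3, fun _ => rfl⟩

lemma D_pos {R : ℕ} (hR : 2 ≤ R) (t u : ℕ) : 1 ≤ D R t u := by
  rcases Nat.eq_zero_or_pos u with rfl | hu
  · rw [D_zero hR]; exact gam_pos hR _
  · rcases D_cases (R := R) t hu with h | ⟨h, -, -⟩
    · rw [h]; unfold s; split_ifs <;> omega
    · exact (gam_pos hR t).trans h

lemma s_pos (t u : ℕ) : 1 ≤ s t u := by unfold s; split_ifs <;> omega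

lemma s_two (a c b : ℕ) : 2 * (a - c) ≤ s a b + s c b := by
  unfold s; split_ifs <;> omega

lemma s_two' (c b b' : ℕ) : 2 * (b - b') ≤ s c b' + s c b := by
  unfold s; split_ifs <;> omega

lemma s_tri (a b c b' : ℕ) : s a b ≤ s a b' + s c b' + s c b := by
  unfold s; split_ifs <;> omega

/-- **The quadrangle inequality.** -/
theorem quad {R : ℕ} (hR : 2 ≤ R) (a c b b' : ℕ) : D R a b ≤ D R a b' + D R c b' + D R c b := by
  have p1 := D_pos hR a b'
  have p2 := D_pos hR c b'
  have p3 := D_pos hR c b
  rcases Nat.eq_zero_or_pos b with rfl | hb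
  · rcases Nat.eq_zero_or_pos b' with rfl | hb'
    · omega
    · rw [D_zero hR, D_zero hR]
      have g1 := gam_add_R hR a
      have g2 := gam_pos hR (c + R)
      rcases D_cases (R := R) a hb' with h1 | ⟨h1, -, -⟩
      · rcases D_cases (R := R) c hb' with h2 | ⟨-, h2, -⟩
        · have h3 := s_two a c b'
          rcases le_total a c with h4 | h4
          · have := gam_mono R (show a + R ≤ c + R by omega)
            omega
          · have h5 := gam_grow hR (c + R) (a - c)
            have h6 : c + R + (a - c) = a + R := by omega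
            rw [h6] at h5
            omega
        · have h3 := s_pos a b'
          rcases lt_or_ge a b' with h4 | h4
          · have := gam_mono R h4.le
            omega
          · have h5 := gam_grow hR b' (a - b')
            have h6 : b' + (a - b') = a := by omega
            have h7 : s a b' = 2 * (a - b') + 1 := by unfold s; rw [if_neg (by omega)]
            rw [h6] at h5
            omega
      · omega
  · rcases Nat.eq_zero_or_pos b' with rfl | hb'
    · rw [D_zero hR, D_zero hR]
      have g1 := gam_pos hR (c + R)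
      rcases lt_or_ge a b with h | h
      · rw [D_lt h]
        rcases le_or_gt b (a + R) with h1 | h1
        · have := gam_mono R h1
          omega
        · rcases le_or_gt b (c + R) with h2 | h2
          · have := gam_mono R h2
            omega
          · rw [D_lt (show c < b by omega)]
            have := gam_le R b
            omega
      · rw [D_le hb h]
        have h1 := gam_mono R (show 2 * a - b + 1 ≤ 2 * a by omega)
        have h2 := gam_double hR a
        have h3 := gam_mono R (show a ≤ a + R by omega)
        omega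
    · rcases lt_or_ge a b with h | h
      · have e := D_lt (R := R) h
        have e1 : D R a b ≤ gam R b := by rw [e]; exact min_le_right _ _
        rcases D_cases (R := R) c hb with h3 | ⟨-, h3, -⟩
        · rcases D_cases (R := R) c hb' with h2 | ⟨h2, -, -⟩
          · rcases D_cases (R := R) a hb' with h1 | ⟨-, h1, -⟩
            · have h4 := s_tri a b c b'
              have h5 : D R a b ≤ s a b := by
                rw [e]; unfold s; rw [if_pos h]; exact min_le_left _ _
              omega
            · have h4 := s_two' c b b'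
              rcases le_total b b' with h5 | h5
              · have := gam_mono R h5
                omega
              · have h6 := gam_grow hR b' (b - b')
                have h7 : b' + (b - b') = b := by omega
                rw [h7] at h6
                omega
          · rcases le_or_gt b c with h4 | h4
            · have := gam_mono R h4
              omega
            · have h5 : s c b = 2 * (b - c) - 1 := by unfold s; rw [if_pos h4]
              have h6 := gam_grow hR c (b - c)
              have h7 : c + (b - c) = b := by omega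
              rw [h7] at h6
              omega
        · omega
      · have e := D_le (R := R) hb h
        have e1 : D R a b ≤ gam R (2 * a - b + 1) := by rw [e]; exact min_le_right _ _
        have e2 : D R a b ≤ 2 * (a - b) + 1 := by rw [e]; exact min_le_left _ _
        have g1 := gam_mono R (show 2 * a - b + 1 ≤ 2 * a by omega)
        have g2 := gam_double hR a
        rcases D_cases (R := R) a hb' with h1 | ⟨h1, -, -⟩
        · rcases D_cases (R := R) c hb' with h2 | ⟨-, h2, -⟩
          · rcases D_cases (R := R) c hb with h3 | ⟨-, -, h3⟩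
            · have h4 := s_tri a b c b'
              have h5 : D R a b ≤ s a b := by
                rw [e]; unfold s; rw [if_neg (by omega)]; exact min_le_left _ _
              omega
            · have h4 := s_two a c b'
              rcases le_or_gt b c with h5 | h5
              · have h6 := h3 h5
                rcases le_total a c with h7 | h7
                · have := gam_mono R (show 2 * a - b + 1 ≤ 2 * c - b + 1 by omega)
                  omega
                · have h8 := gam_grow2 hR (2 * c - b + 1) (a - c)
                  have h9 : 2 * c - b + 1 + 2 * (a - c) = 2 * a - b + 1 := by omega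
                  rw [h9] at h8
                  omega
              · omega
          · rcases lt_or_ge a b' with h4 | h4
            · have := gam_mono R h4.le
              have := s_pos a b'
              omega
            · have h5 := gam_grow hR b' (a - b')
              have h6 : b' + (a - b') = a := by omega
              have h7 : s a b' = 2 * (a - b') + 1 := by unfold s; rw [if_neg (by omega)]
              rw [h6] at h5
              omega
        · omega

/-! ### From agent-item distances to pseudometrics -/

/-- the extension of distances between agents and items to all pairs of points -/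
noncomputable def ext {n : ℕ} (E : Fin n → Fin n → ℝ) : Dist n
  | .inl a, .inl c => ‖E a - E c‖
  | .inr b, .inr b' => ‖(fun a => E a b) - fun a => E a b'‖
  | .inl a, .inr b => E a b
  | .inr b, .inl a => E a b

lemma ext_pseudo {n : ℕ} {E : Fin n → Fin n → ℝ} (h0 : ∀ a b, 0 ≤ E a b)
    (hq : ∀ a c b b', E a b ≤ E a b' + E c b' + E c b) : IsPseudometric (ext E) where
  self := by
    rintro (a | b)
    · simp [ext]
    · simp [ext]
  symm := by
    rintro (a | b) (c | b')
    · exact norm_sub_rev _ _
    · rfl
    · rfl
    · exact norm_sub_rev _ _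
  triangle := by
    have hA : ∀ a c b, |E a b - E c b| ≤ ‖E a - E c‖ := fun a c b => by
      have := norm_le_pi_norm (E a - E c) b
      simpa using this
    have hB : ∀ a b b', |E a b - E a b'| ≤ ‖(fun a => E a b) - fun a => E a b'‖ := fun a b b' => by
      have := norm_le_pi_norm ((fun a => E a b) - fun a => E a b') a
      simpa using this
    rintro (a | b) (c | b') (e | b'')
    · exact norm_sub_le_norm_sub_add_norm_sub _ _ _
    · show E a b'' ≤ ‖E a - E c‖ + E c b''
      have := (abs_le.1 (hA a c b'')).2
      linarith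
    · show ‖E a - E e‖ ≤ E a b' + E e b'
      refine (pi_norm_le_iff_of_nonneg (add_nonneg (h0 _ _) (h0 _ _))).2 fun x => ?_
      show |E a x - E e x| ≤ _
      rw [abs_le]
      have h1 := hq a e x b'
      have h2 := hq e a x b'
      constructor <;> linarith
    · show E a b'' ≤ E a b' + ‖(fun a => E a b') - fun a => E a b''‖
      have := (abs_le.1 (hB a b' b'')).1
      linarith
    · show E e b ≤ E c b + ‖E c - E e‖
      have := (abs_le.1 (hA c e b)).1
      linarith
    · show ‖(fun a => E a b) - fun a => E a b''‖ ≤ E c b + E c b''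
      refine (pi_norm_le_iff_of_nonneg (add_nonneg (h0 _ _) (h0 _ _))).2 fun x => ?_
      show |E x b - E x b''| ≤ _
      rw [abs_le]
      have h1 := hq x c b b''
      have h2 := hq x c b'' b
      constructor <;> linarith
    · show E e b ≤ ‖(fun a => E a b) - fun a => E a b'‖ + E e b'
      have := (abs_le.1 (hB e b b')).2
      linarith
    · exact norm_sub_le_norm_sub_add_norm_sub _ _ _

/-! ### The two worlds -/

/-- the profile -/
noncomputable def prof (R n : ℕ) : Profile n := fun a => (Tuple.sort fun b : Fin n => key R a b).symm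

lemma key_le_of_lt {R n : ℕ} {a b b' : Fin n} (h : prof R n a b < prof R n a b') :
    key R a b ≤ key R a b' := by
  have h1 := Tuple.monotone_sort (fun b : Fin n => key R a b) h.le
  simpa [prof] using h1

/-- the pseudometric given by a relabelling of the agents and the items -/
lemma world {R n : ℕ} (hR : 2 ≤ R) (τ ρ : ℕ → ℕ)
    (hkey : ∀ a b : Fin n, key R (τ a) (ρ b) = key R a b) :
    Consistent (prof R n) (ext fun a b : Fin n => (D R (τ a) (ρ b) : ℝ)) := by
  refine ⟨ext_pseudo (fun a b => Nat.cast_nonneg _) fun a c b b' => ?_, fun a b b' h => ?_⟩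
  · exact_mod_cast quad hR (τ a) (τ c) (ρ b) (ρ b')
  · show (D R (τ a) (ρ b) : ℝ) ≤ (D R (τ a) (ρ b') : ℝ)
    have h1 := key_le_of_lt h
    rw [← hkey a b, ← hkey a b'] at h1
    exact_mod_cast F_mono R (τ a) h1

lemma bdd {n : ℕ} (d : Dist n) (M : Equiv.Perm (Fin n)) :
    BddAbove (Set.range fun a : Fin n => d (.inl a) (.inr (M a))) := Set.finite_range _ |>.bddAbove

lemma bdd' {n : ℕ} (d : Dist n) : BddBelow (Set.range fun M : Equiv.Perm (Fin n) => maxCost M d) :=
  Set.finite_range _ |>.bddBelow

/-- the general lower bound -/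
lemma lower {f : Mechanism} {n : ℕ} {α : ℝ≥0∞} (hn : 0 < n) (hα : α ∈ {α : ℝ≥0∞ |
    ∀ (σ : Profile n) (d : Dist n), Consistent σ d →
      ENNReal.ofReal (maxCost (f n σ) d) ≤ α * ENNReal.ofReal (opt d)})
    (σ : Profile n) (d : Dist n) (hd : Consistent σ d) (N : Equiv.Perm (Fin n))
    (hN : ∀ a, d (.inl a) (.inr (N a)) ≤ 1) (a : Fin n) (k : ℕ)
    (hk : (k : ℝ) ≤ d (.inl a) (.inr (f n σ a))) : (k : ℝ≥0∞) ≤ α := by
  have : Nonempty (Fin n) := ⟨⟨0, hn⟩⟩
  have h1 := hα σ d hd
  have h2 : opt d ≤ 1 := (ciInf_le (bdd' d) N).trans (ciSup_le hN)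
  have h3 : (k : ℝ) ≤ maxCost (f n σ) d := hk.trans (le_ciSup (bdd d (f n σ)) a)
  calc (k : ℝ≥0∞) = ENNReal.ofReal (k : ℝ) := (ENNReal.ofReal_natCast k).symm
    _ ≤ ENNReal.ofReal (maxCost (f n σ) d) := ENNReal.ofReal_le_ofReal h3
    _ ≤ α * ENNReal.ofReal (opt d) := h1
    _ ≤ α * 1 := by
        gcongr
        exact ENNReal.ofReal_le_one.2 h2
    _ = α := mul_one α

/-- the lower bound `2 R - 1` for at least `R * 2 ^ R` agents -/
theorem main {R n : ℕ} (hR : 2 ≤ R) (hn : R * 2 ^ R ≤ n) (f : Mechanism) :
    ((2 * R - 1 : ℕ) : ℝ≥0∞) ≤ maxDistortion f n := by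
  have hpow : R * 2 ^ R = 2 * (R * 2 ^ (R - 1)) := by
    have : 2 ^ R = 2 * 2 ^ (R - 1) := by
      rw [← pow_succ']; congr 1; omega
    rw [this]; ring
  have hn0 : 0 < n := by
    have : 0 < R * 2 ^ R := by positivity
    omega
  refine le_sInf fun α hα => ?_
  set σ := prof R n with hσ
  set y : Fin n := ⟨0, hn0⟩ with hy
  set a : Fin n := (f n σ).symm y with ha
  have hfa : f n σ a = y := by rw [ha, Equiv.apply_symm_apply]
  have hya : ((y : Fin n) : ℕ) = 0 := rfl
  have hal := a.isLt
  rcases le_or_gt n (2 * (a : ℕ) + 1) with hc | hc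
  · -- item `0` is at the left end
    refine lower hn0 hα σ _ (world hR (fun x => x) (fun x => x) fun _ _ => rfl) (Equiv.refl _) ?_ a
      _ ?_
    · intro t
      show (D R t t : ℝ) ≤ 1
      have : D R t t ≤ 1 := by
        rcases Nat.eq_zero_or_pos (t : ℕ) with h | h
        · rw [h, D_zero hR, zero_add, gam_self hR]
        · rw [D_le h le_rfl, Nat.sub_self]
          exact min_le_left _ _
      exact_mod_cast this
    · show ((2 * R - 1 : ℕ) : ℝ) ≤ (D R a (f n σ a : Fin n) : ℝ)
      rw [hfa, hya, D_zero hR, gam_large hR (by omega)]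
  · -- item `0` is at the right end
    have hkey : ∀ t u : Fin n, key R ((fun x => n - 1 - x) t) ((fun x => if x = 0 then 0 else n - x) u)
        = key R t u := by
      intro t u
      have h1 := t.isLt
      have h2 := u.isLt
      unfold key
      simp only
      split_ifs <;> omega
    refine lower hn0 hα σ _ (world hR (fun x => n - 1 - x) (fun x => if x = 0 then 0 else n - x) hkey)
      (finRotate n) ?_ a _ ?_
    · intro t
      show (D R (n - 1 - t) (if ((finRotate n t : Fin n) : ℕ) = 0 then 0 else n - (finRotate n t : Fin n)) : ℝ) ≤ 1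
      have : D R (n - 1 - t) (if ((finRotate n t : Fin n) : ℕ) = 0 then 0
          else n - (finRotate n t : Fin n)) ≤ 1 := by
        obtain ⟨m, rfl⟩ : ∃ m, n = m + 1 := ⟨n - 1, by omega⟩
        rcases eq_or_ne t (Fin.last m) with h | h
        · rw [h, finRotate_last]
          have e : ((0 : Fin (m + 1)) : ℕ) = 0 := rfl
          rw [e, if_pos rfl]
          have e2 : m + 1 - 1 - ((Fin.last m : Fin (m + 1)) : ℕ) = 0 := by simp
          rw [e2, D_zero hR, zero_add, gam_self hR]
        · have hlt : (t : ℕ) < m := by
            have := Fin.val_lt_last h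
            exact this
          have e : ((finRotate (m + 1) t : Fin (m + 1)) : ℕ) = (t : ℕ) + 1 := by
            rw [coe_finRotate_of_ne_last h]
          rw [e, if_neg (by omega)]
          have e2 : m + 1 - ((t : ℕ) + 1) = m + 1 - 1 - (t : ℕ) := by omega
          rw [e2, D_le (by omega) le_rfl, Nat.sub_self]
          exact min_le_left _ _
      exact_mod_cast this
    · show ((2 * R - 1 : ℕ) : ℝ) ≤
        (D R (n - 1 - a) (if ((f n σ a : Fin n) : ℕ) = 0 then 0 else n - (f n σ a : Fin n)) : ℝ)
      rw [hfa, hya, if_pos rfl, D_zero hR, gam_large hR (by omega)]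

/-- **No deterministic mechanism has bounded max-distortion.** The max-distortion of every
deterministic matching mechanism on `n ≥ 16` agents is at least `⌊log₂ n⌋ - 2`; in particular there
is no constant which bounds the max-distortion of some mechanism for all `n`. -/
theorem result (f : Mechanism) :
    (∀ n : ℕ, 16 ≤ n → ((Nat.log 2 n - 2 : ℕ) : ℝ≥0∞) ≤ maxDistortion f n) ∧
      ¬ ∃ C : ℝ≥0, ∀ n : ℕ, maxDistortion f n ≤ C := by
  have h1 : ∀ n : ℕ, 16 ≤ n → ((Nat.log 2 n - 2 : ℕ) : ℝ≥0∞) ≤ maxDistortion f n := by
    intro n hn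
    set L := Nat.log 2 n with hL
    have hL4 : 4 ≤ L := by
      have := Nat.log_mono_right (b := 2) hn
      have e : Nat.log 2 16 = 4 := by
        rw [show (16 : ℕ) = 2 ^ 4 by norm_num, Nat.log_pow (by norm_num)]
      rwa [e] at this
    set R := L / 2 with hRdef
    have hR : 2 ≤ R := by omega
    have hle : 2 ^ L ≤ n := Nat.pow_log_le_self 2 (by omega)
    have h2 : R * 2 ^ R ≤ n := by
      refine le_trans ?_ hle
      calc R * 2 ^ R ≤ 2 ^ R * 2 ^ R := by
            gcongr
            exact (Nat.lt_two_pow_self).le
        _ = 2 ^ (R + R) := by rw [pow_add]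
        _ ≤ 2 ^ L := Nat.pow_le_pow_right (by norm_num) (by omega)
    refine le_trans ?_ (main hR h2 f)
    exact_mod_cast (by omega : L - 2 ≤ 2 * R - 1)
  refine ⟨h1, ?_⟩
  rintro ⟨C, hC⟩
  obtain ⟨k, hk⟩ := exists_nat_gt C
  have h2 := (h1 (2 ^ (k + 14)) (by
    calc 16 = 2 ^ 4 := by norm_num
      _ ≤ 2 ^ (k + 14) := Nat.pow_le_pow_right (by norm_num) (by omega))).trans (hC _)
  rw [Nat.log_pow (by norm_num)] at h2
  have h3 : (k : ℝ≥0∞) ≤ ((k + 14 - 2 : ℕ) : ℝ≥0∞) := by exact_mod_cast (by omega : k ≤ k + 14 - 2)
  have h4 : (k : ℝ≥0∞) ≤ C := h3.trans h2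
  have h5 : (k : ℝ≥0) ≤ C := by exact_mod_cast h4
  exact absurd hk (not_lt.2 h5)

end Pool.Agent.Results.MP_b944bf_lc.UnboundedMaxDistortion
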